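import Pool.Agent.H60.LQ.Stmts
import Pool.Agent.H53.Dense.Iter

/-!
# The iteration in the form with the entropy of the point
-/

set_option autoImplicit false

namespace Pool.LQ

open Pool.Agent.H53.Dns

namespace Itr53

/-- bounds for the new exponent -/
lemma nx_bounds {α a : ℝ} (h1 : 1 < α) (hα : α ^ 3 = 4 * α - 2) (ha1 : α < a) (ha2 : a ≤ 2) :
    α < nx a ∧ nx a - α ≤ (a - α) * (1 / 2) := by
  obtain ⟨hα1, hα2⟩ := alpha_bounds h1 hα
  have hD : 0 < a ^ 2 + 3 * a - 2 := by nlinarith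
  have hsub := step_sub hα hD
  have hn1 : 0 < (3 - α) * a + 2 - α ^ 2 := by nlinarith
  have hn2 : (3 - α) * a + 2 - α ^ 2 ≤ 1 / 2 * (a ^ 2 + 3 * a - 2) := by nlinarith
  have hr1 : 0 < ((3 - α) * a + 2 - α ^ 2) / (a ^ 2 + 3 * a - 2) := div_pos hn1 hD
  have hr2 : ((3 - α) * a + 2 - α ^ 2) / (a ^ 2 + 3 * a - 2) ≤ 1 / 2 := by
    rw [div_le_iff₀ hD]; exact hn2
  have haα : 0 < a - α := by linarith
  have hp1 : 0 < (a - α) * (((3 - α) * a + 2 - α ^ 2) / (a ^ 2 + 3 * a - 2)) :=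
    mul_pos haα hr1
  have hp2 : (a - α) * (((3 - α) * a + 2 - α ^ 2) / (a ^ 2 + 3 * a - 2)) ≤
      (a - α) * (1 / 2) := mul_le_mul_of_nonneg_left hr2 haα.le
  unfold nx
  constructor <;> linarith

/-- the coefficient of the deficit -/
lemma lp_le {α a d : ℝ} (h1 : 1 < α) (hα : α ^ 3 = 4 * α - 2) (ha1 : α < a) (ha2 : a ≤ 2)
    (hd : 7 ≤ d) : lp a (1.01 * (a + d)) ≤ nx a + d ∧ 0 ≤ lp a (1.01 * (a + d)) := by
  obtain ⟨hα1, hα2⟩ := alpha_bounds h1 hα
  have ha3 : 1.675 < a := by linarith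
  have hD : 0 < a ^ 2 + 3 * a - 2 := by nlinarith
  have e0 : nx a + d = (3 * a ^ 2 + 2 * a - 2 + d * (a ^ 2 + 3 * a - 2)) / (a ^ 2 + 3 * a - 2) := by
    rw [nx, add_div, mul_div_cancel_right₀ _ hD.ne']
  constructor
  · rw [e0, lp]
    refine div_le_div_of_nonneg_right ?_ hD.le
    have e1 : 0 ≤ (d - 7) * (a ^ 2 - 1 - 0.01 * (3 * a - 1)) :=
      mul_nonneg (by linarith) (by nlinarith)
    have e2 : 0 ≤ 2.97 * a ^ 2 - 2.2 * a - 3.93 := by nlinarith
    linarith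
  · rw [lp]
    refine div_nonneg ?_ hD.le
    have e1 : 0 ≤ (3 * a - 1) * (1.01 * (a + d) - a) :=
      mul_nonneg (by linarith) (by linarith)
    nlinarith

lemma kp_nonneg {a : ℝ} (ha1 : 1.675 < a) (ha2 : a ≤ 2) : 0 ≤ Pool.Agent.H24.KTH.kp a := by
  rw [Pool.Agent.H24.KTH.kp]
  have hD : 0 < a ^ 2 + 3 * a - 2 := by nlinarith
  exact div_nonneg (by nlinarith) hD.le

end Itr53

open Itr53

/-- (ITR) The iteration. -/
theorem itr (h1 : LZRStmt) (h2 : LOCStmt) (h3 : STPStmt) (h4 : GAGStmt) : ITRStmt := by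
  intro d hd α hα1 hα x hx
  obtain ⟨b1, b2⟩ := alpha_bounds hα1 hα
  have hd' : (7 : ℝ) ≤ d := by exact_mod_cast hd
  have key : ∀ k : ℕ, ∃ a : ℝ, α < a ∧ a ≤ 2 ∧ a - α ≤ (1 / 2) ^ k ∧
      AKS d a (1.01 * (a + d)) := by
    intro k
    induction k with
    | zero =>
      refine ⟨2, by linarith, le_rfl, by rw [pow_zero]; linarith, ?_⟩
      have h := h2 d 2 4 (by norm_num) (by norm_num) (h1 d) (1 / 100) (by norm_num)
      have e : max 4 ((1 + 1 / 100) * (2 + (d : ℝ))) = 1.01 * (2 + (d : ℝ)) := by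
        rw [max_eq_right (by linarith)]
        norm_num
      rwa [e] at h
    | succ k ih =>
      obtain ⟨a, ha1, ha2, hak, hA⟩ := ih
      obtain ⟨n1, n2⟩ := nx_bounds hα1 hα ha1 ha2
      obtain ⟨l1, l2⟩ := lp_le hα1 hα ha1 ha2 hd'
      have hg := h3 d a (1.01 * (a + d)) (by omega) (by linarith) ha2 (by linarith) hA
      have hs := h4 d _ _ _ (kp_nonneg (by linarith) ha2) hg
      have h := h2 d (nx a) _ (by linarith) l2 hs (1 / 100) (by norm_num)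
      refine ⟨nx a, n1, by linarith, ?_, ?_⟩
      · have hpk : (1 / 2 : ℝ) ^ (k + 1) = (1 / 2) ^ k * (1 / 2) := pow_succ _ _
        linarith
      · have e : max (lp a (1.01 * (a + d))) ((1 + 1 / 100) * (nx a + (d : ℝ))) =
            1.01 * (nx a + (d : ℝ)) := by
          rw [max_eq_right (by linarith)]
          norm_num
        rwa [e] at h
  obtain ⟨k, hk⟩ := exists_pow_lt_of_lt_one (sub_pos.mpr hx) (by norm_num : (1 / 2 : ℝ) < 1)
  obtain ⟨a, ha1, ha2, hak, hA⟩ := key k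
  exact ⟨a, ha1, by linarith, ha2, hA, (lp_le hα1 hα ha1 ha2 hd').1⟩

end Pool.LQ
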