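import Pool.Agent.H60.LQ.Stmts
import Pool.Agent.H32.Dense.Loc

/-!
# Localisation of the times in the form with the entropy of the point
-/

set_option autoImplicit false

namespace Pool.LQ

open Finset Real
open Pool.Agent.H49.Ent Pool.Agent.H32.Dense Pool.Agent.H24.KTH

namespace Loc53

theorem local_step_aux {d : ℕ} {a lam B₀ B₁ ε : ℝ} (h : Ag d a lam B₀ B₁ ε) (ha : 0 ≤ a)
    {M M' n : ℕ} (hM' : 0 < M') (hn : M' = 2 ^ n) {Ω : Type} [Fintype Ω] {ζ : Type} {p : Ω → ℝ}
    {Z : Ω → ζ} {v : Ω → Fin d → ℤ} {u : Ω → Fin d → ℝ} {τ : Ω → ℤ} (hf : IsFam M p Z v u τ) :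
    CH p v (fun ω => (Z ω, τ ω / (M' : ℤ))) ≤
      a * (CH p τ (fun ω => (Z ω, τ ω / (M' : ℤ))) + (Sf M p Z v u τ + 2 * d) -
        n * Real.log 2) +
      lam * (Real.log M' - CH p τ (fun ω => (bv Z v ω, τ ω / (M' : ℤ)))) + B₀ +
      B₁ * Gf M' p (fun ω => (bv Z v ω, τ ω / (M' : ℤ))) (fun ω => τ ω % (M' : ℤ)) +
      ε * (n * Real.log 2) + d * Real.log (M / M' + 2) := by
  have hq := hf.hp
  have hM0 : (0 : ℝ) < M := by exact_mod_cast hf.hM
  have hM'0 : (0 : ℝ) < M' := by exact_mod_cast hM'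
  have hM'Z : (0 : ℤ) < (M' : ℤ) := by exact_mod_cast hM'
  set Q : Ω → ℤ := fun ω => τ ω / (M' : ℤ) with hQ
  set τ' : Ω → ℤ := fun ω => τ ω % (M' : ℤ) with hτ'
  set v' : Ω → Fin d → ℤ := fun ω k => ⌊(M' : ℝ) * v ω k / M⌋ with hv'
  set R : Ω → Fin d → ℤ := fun ω k => v ω k - ⌊(M : ℝ) * v' ω k / M'⌋ with hR
  set u' : Ω → Fin d → ℝ := fun ω => pos M (u ω) (v ω) (M' * Q ω) with hu'
  set Z' : Ω → ζ × ℤ × (Fin d → ℤ) := fun ω => (Z ω, Q ω, R ω) with hZ'
  -- floors
  have f1 : ∀ ω k, (v' ω k : ℝ) ≤ (M' : ℝ) * v ω k / M := fun ω k => Int.floor_le _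
  have f2 : ∀ ω k, (M' : ℝ) * v ω k / M < v' ω k + 1 := fun ω k => Int.lt_floor_add_one _
  have f3 : ∀ ω k, 0 ≤ R ω k := by
    intro ω k
    have e1 : (M : ℝ) * v' ω k / M' ≤ v ω k := by
      rw [div_le_iff₀ hM'0]
      have := f1 ω k
      rw [le_div_iff₀ hM0] at this
      linarith
    have e2 : ⌊(M : ℝ) * v' ω k / M'⌋ ≤ v ω k := by
      have := Int.floor_le_floor e1
      rwa [Int.floor_intCast] at this
    simp only [hR]
    linarith
  have f4 : ∀ ω k, (R ω k : ℝ) < M / M' + 1 := by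
    intro ω k
    have e1 : (v ω k : ℝ) < (M : ℝ) * v' ω k / M' + M / M' := by
      rw [← add_div, lt_div_iff₀ hM'0]
      have := f2 ω k
      rw [div_lt_iff₀ hM0] at this
      linarith
    have e2 := Int.lt_floor_add_one ((M : ℝ) * v' ω k / M')
    simp only [hR]
    push_cast
    linarith
  have hvR : ∀ ω ω', v' ω = v' ω' → R ω = R ω' → v ω = v ω' := by
    intro ω ω' e1 e2
    funext k
    have e3 := congrFun e2 k
    have e4 := congrFun e1 k
    simp only [hR] at e3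
    rw [e4] at e3
    linarith
  have hvv' : ∀ ω ω', v ω = v ω' → v' ω = v' ω' := by
    intro ω ω' e1
    funext k
    simp only [hv']
    rw [e1]
  have hvR' : ∀ ω ω', v ω = v ω' → R ω = R ω' := by
    intro ω ω' e1
    funext k
    simp only [hR]
    rw [hvv' ω ω' e1, e1]
  have hτQ : ∀ ω, τ ω = M' * Q ω + τ' ω := fun ω => (Int.mul_ediv_add_emod (τ ω) (M' : ℤ)).symm
  have hτ'0 : ∀ ω, 0 ≤ τ' ω := fun ω => Int.emod_nonneg _ hM'Z.ne'
  have hτ'1 : ∀ ω, τ' ω < M' := fun ω => Int.emod_lt_of_pos _ hM'Z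
  -- the new family
  have hfam : IsFam M' p Z' v' u' τ' :=
    { hM := hM'
      hp := hf.hp
      h1 := hf.h1
      hv := by
        intro ω hω k
        have b := hf.hv ω hω k
        have b' : |(v ω k : ℝ)| ≤ M := by exact_mod_cast b
        obtain ⟨b1, b2⟩ := abs_le.mp b'
        rw [abs_le]
        constructor
        · refine Int.le_floor.mpr ?_
          push_cast
          rw [le_div_iff₀ hM0]
          nlinarith
        · have e1 : (M' : ℝ) * v ω k / M ≤ (M' : ℤ) := by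
            rw [div_le_iff₀ hM0]
            push_cast
            nlinarith
          have e2 := Int.floor_le_floor e1
          rwa [Int.floor_intCast] at e2
      hu := by
        intro ω ω' hω hω' e
        simp only [hZ', Prod.mk.injEq] at e
        obtain ⟨e1, e2, e3, e4⟩ := e
        have e5 := hvR ω ω' e1 e4
        have e6 : u ω = u ω' := hf.hu ω ω' hω hω' (by simp only [Prod.mk.injEq]; exact ⟨e5, e2⟩)
        simp only [hu']
        rw [e5, e6, e3]
      hτ := fun ω _ => ⟨hτ'0 ω, hτ'1 ω⟩ }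
  have hak := h n Ω _ p Z' v' u' τ' (hn ▸ hfam)
  rw [← hn] at hak
  change CH p v' Z' ≤ a * (Sb M' p Z' v' u' τ' - n * Real.log 2) +
    lam * Kf M' p (fun ω => (v' ω, Z' ω)) τ' + B₀ +
    B₁ * Gf M' p (fun ω => (v' ω, Z' ω)) τ' + ε * (n * Real.log 2) at hak
  -- the entropy of the time
  have hT : CH p τ' Z' ≤ CH p τ (fun ω => (Z ω, Q ω)) := by
    have t1 : CH p τ' Z' ≤ CH p τ' (fun ω => (Z ω, Q ω)) := by
      refine CH_mono_cond hq ?_
      intro ω ω' _ _ e
      simp only [hZ', Prod.mk.injEq] at e ⊢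
      exact ⟨e.1, e.2.1⟩
    have t2 : CH p τ' (fun ω => (Z ω, Q ω)) = CH p τ (fun ω => (Z ω, Q ω)) := by
      refine CH_congr hq ?_ ?_ ?_ ?_
      · intro ω ω' _ _ e
        simp only [Prod.mk.injEq] at e
        rw [hτQ ω, hτQ ω', e.1, e.2.2]
      · intro ω ω' _ _ e
        simp only [Prod.mk.injEq] at e
        simp only [hτ']
        rw [e.1]
      · intro ω ω' _ _ e
        simpa only [Prod.mk.injEq] using e
      · intro ω ω' _ _ e
        simpa only [Prod.mk.injEq] using e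
    exact t1.trans t2.le
  -- the slices
  have hS : Sf M' p Z' v' u' τ' ≤ Sf M p Z v u τ + 2 * d := by
    unfold Sf
    have c1 := CH_le_add hq (fun ω => rd (pos M' (u' ω) (v' ω) (τ' ω)))
      (fun ω => rd (pos M (u ω) (v ω) (τ ω))) (fun ω => (Z' ω, τ' ω))
    have c2 : CH p (fun ω => rd (pos M (u ω) (v ω) (τ ω))) (fun ω => (Z' ω, τ' ω)) ≤
        CH p (fun ω => rd (pos M (u ω) (v ω) (τ ω))) (fun ω => (Z ω, τ ω)) := by
      refine CH_mono_cond hq ?_
      intro ω ω' _ _ e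
      simp only [hZ', Prod.mk.injEq] at e ⊢
      obtain ⟨⟨e1, e2, _⟩, e3⟩ := e
      exact ⟨e1, by rw [hτQ ω, hτQ ω', e2, e3]⟩
    have key : ∀ ω, ∀ k, pos M' (u' ω) (v' ω) (τ' ω) k ≤ pos M (u ω) (v ω) (τ ω) k ∧
        pos M (u ω) (v ω) (τ ω) k < pos M' (u' ω) (v' ω) (τ' ω) k + 1 := by
      intro ω k
      have g1 : (0 : ℝ) ≤ τ' ω := by exact_mod_cast hτ'0 ω
      have g2 : (τ' ω : ℝ) ≤ M' := by exact_mod_cast (hτ'1 ω).le
      have g3 : (τ ω : ℝ) = M' * Q ω + τ' ω := by exact_mod_cast hτQ ω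
      have g4 : pos M (u ω) (v ω) (τ ω) k - pos M' (u' ω) (v' ω) (τ' ω) k =
          (τ' ω : ℝ) / M' * ((M' : ℝ) * v ω k / M - v' ω k) := by
        simp only [hu', pos]
        rw [g3]
        push_cast
        field_simp
        ring
      have g5 : (0 : ℝ) ≤ (M' : ℝ) * v ω k / M - v' ω k := by linarith [f1 ω k]
      have g6 : (M' : ℝ) * v ω k / M - v' ω k < 1 := by linarith [f2 ω k]
      have g7 : (τ' ω : ℝ) / M' ≤ 1 := (div_le_one hM'0).mpr g2
      have g8 : 0 ≤ (τ' ω : ℝ) / M' := by positivity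
      constructor
      · have := mul_nonneg g8 g5
        linarith
      · have := mul_le_mul_of_nonneg_right g7 g5
        linarith
    have key2 : ∀ ω, ∀ k, rd (pos M' (u' ω) (v' ω) (τ' ω)) k ≤ rd (pos M (u ω) (v ω) (τ ω)) k ∧
        rd (pos M (u ω) (v ω) (τ ω)) k ≤ rd (pos M' (u' ω) (v' ω) (τ' ω)) k + 1 := by
      intro ω k
      obtain ⟨k1, k2⟩ := key ω k
      refine ⟨Int.floor_le_floor k1, ?_⟩
      have := Int.floor_le_floor k2.le
      rwa [Int.floor_add_one] at this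
    have c3 := CH_le_vec hq hf.h1 (fun ω => rd (pos M' (u' ω) (v' ω) (τ' ω)))
      (fun ω => (rd (pos M (u ω) (v ω) (τ ω)), (Z' ω, τ' ω))) (fun _ => 1) (by
        intro ω ω' _ _ e k
        have e1 := congrFun (Prod.ext_iff.mp e).1 k
        simp only at e1
        obtain ⟨k1, k2⟩ := key2 ω k
        obtain ⟨k3, k4⟩ := key2 ω' k
        have : |rd (pos M' (u' ω) (v' ω) (τ' ω)) k - rd (pos M' (u' ω') (v' ω') (τ' ω')) k| ≤ 1 := by
          rw [abs_le]
          constructor <;> omega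
        exact_mod_cast this)
    rw [Ex_const hf.h1] at c3
    have c4 : Real.log (2 * 1 + 1) ≤ 2 := by
      have := Real.log_le_sub_one_of_pos (by norm_num : (0 : ℝ) < 2 * 1 + 1)
      linarith
    have c5 : (d : ℝ) * Real.log (2 * 1 + 1) ≤ d * 2 :=
      mul_le_mul_of_nonneg_left c4 (Nat.cast_nonneg d)
    linarith
  -- the times
  have hK : Kf M' p (fun ω => (v' ω, Z' ω)) τ' =
      Real.log M' - CH p τ (fun ω => (bv Z v ω, Q ω)) := by
    unfold Kf
    congr 1
    refine CH_congr hq ?_ ?_ ?_ ?_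
    · intro ω ω' _ _ e
      simp only [hZ', Prod.mk.injEq] at e
      obtain ⟨e1, e2, e3, e4, e5⟩ := e
      rw [hτQ ω, hτQ ω', e4, e1]
    · intro ω ω' _ _ e
      simp only [Prod.mk.injEq] at e
      simp only [hτ']
      rw [e.1]
    · intro ω ω' _ _ e
      simp only [hZ', Prod.mk.injEq] at e
      obtain ⟨e1, e2, e3, e4⟩ := e
      simp only [bv, Prod.mk.injEq]
      exact ⟨⟨hvR ω ω' e1 e4, e2⟩, e3⟩
    · intro ω ω' _ _ e
      simp only [bv, Prod.mk.injEq] at e
      obtain ⟨⟨e1, e2⟩, e3⟩ := e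
      simp only [hZ', Prod.mk.injEq]
      exact ⟨hvv' ω ω' e1, e2, e3, hvR' ω ω' e1⟩
  have hG : Gf M' p (fun ω => (v' ω, Z' ω)) τ' = Gf M' p (fun ω => (bv Z v ω, Q ω)) τ' := by
    refine Gf_congr hq ?_ ?_ M' τ'
    · intro ω ω' _ _ e
      simp only [hZ', Prod.mk.injEq] at e
      obtain ⟨e1, e2, e3, e4⟩ := e
      simp only [bv, Prod.mk.injEq]
      exact ⟨⟨hvR ω ω' e1 e4, e2⟩, e3⟩
    · intro ω ω' _ _ e
      simp only [bv, Prod.mk.injEq] at e
      obtain ⟨⟨e1, e2⟩, e3⟩ := e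
      simp only [hZ', Prod.mk.injEq]
      exact ⟨hvv' ω ω' e1, e2, e3, hvR' ω ω' e1⟩
  rw [hK, hG] at hak
  unfold Sb at hak
  -- the direction
  have d1 := CH_le_add hq v R (fun ω => (Z ω, Q ω))
  have d2 : CH p v (fun ω => (R ω, (Z ω, Q ω))) ≤ CH p v' Z' := by
    have : CH p v (fun ω => (R ω, (Z ω, Q ω))) = CH p v' Z' := by
      refine CH_congr hq ?_ ?_ ?_ ?_
      · intro ω ω' _ _ e
        simp only [Prod.mk.injEq] at e
        exact hvv' ω ω' e.1
      · intro ω ω' _ _ e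
        simp only [hZ', Prod.mk.injEq] at e
        exact hvR ω ω' e.1 e.2.2.2
      · intro ω ω' _ _ e
        simp only [hZ', Prod.mk.injEq] at e ⊢
        tauto
      · intro ω ω' _ _ e
        simp only [hZ', Prod.mk.injEq] at e ⊢
        tauto
    exact this.le
  have d3 := CH_le_card hq hf.h1 R (fun ω => (Z ω, Q ω))
    (fun _ => Fintype.piFinset fun _ : Fin d => Finset.Ico 0 ⌈(M : ℝ) / M' + 1⌉) (by
      intro ω _
      rw [Fintype.mem_piFinset]
      intro k
      rw [Finset.mem_Ico]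
      refine ⟨f3 ω k, ?_⟩
      have := (f4 ω k).trans_le (Int.le_ceil _)
      exact_mod_cast this)
  have d4 : Real.log ((Fintype.piFinset fun _ : Fin d =>
      Finset.Ico 0 ⌈(M : ℝ) / M' + 1⌉).card : ℝ) ≤ d * Real.log (M / M' + 2) := by
    rw [Fintype.card_piFinset]
    simp only [Finset.prod_const, Finset.card_univ, Fintype.card_fin, Int.card_Ico, sub_zero]
    push_cast
    rw [Real.log_pow]
    refine mul_le_mul_of_nonneg_left ?_ (Nat.cast_nonneg d)
    have g1 : 0 ≤ (M : ℝ) / M' := by positivity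
    have g2 : 0 < ⌈(M : ℝ) / M' + 1⌉ := Int.ceil_pos.mpr (by positivity)
    have g3 : ((⌈(M : ℝ) / M' + 1⌉.toNat : ℤ) : ℝ) = ⌈(M : ℝ) / M' + 1⌉ := by
      rw [Int.toNat_of_nonneg g2.le]
    have g4 : ((⌈(M : ℝ) / M' + 1⌉.toNat : ℕ) : ℝ) = ⌈(M : ℝ) / M' + 1⌉ := by
      exact_mod_cast g3
    rw [g4]
    refine Real.log_le_log (by exact_mod_cast g2) ?_
    have := Int.ceil_lt_add_one ((M : ℝ) / M' + 1)
    linarith
  rw [Ex_const hf.h1] at d3
  have e1 := mul_le_mul_of_nonneg_left (add_le_add hT hS) ha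
  linarith


theorem local_step {d : ℕ} {a lam B₀ B₁ ε : ℝ} (h : Ag d a lam B₀ B₁ ε) (ha : 0 ≤ a)
    {M n : ℕ} {Ω : Type} [Fintype Ω] {ζ : Type} {p : Ω → ℝ}
    {Z : Ω → ζ} {v : Ω → Fin d → ℤ} {u : Ω → Fin d → ℝ} {τ : Ω → ℤ} (hf : IsFam M p Z v u τ) :
    CH p v (fun ω => (Z ω, τ ω / 2 ^ n)) ≤
      a * (CH p τ (fun ω => (Z ω, τ ω / 2 ^ n)) + (Sf M p Z v u τ + 2 * d) - n * Real.log 2) +
      lam * (n * Real.log 2 - CH p τ (fun ω => (bv Z v ω, τ ω / 2 ^ n))) + B₀ +
      B₁ * Gf (2 ^ n) p (fun ω => (bv Z v ω, τ ω / 2 ^ n)) (fun ω => τ ω % 2 ^ n) +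
      ε * (n * Real.log 2) + d * Real.log (M / 2 ^ n + 2) := by
  have := local_step_aux h ha (M' := 2 ^ n) (by positivity) rfl hf
  push_cast at this
  rw [Real.log_pow] at this
  exact this

/-- The localised inequality, before the choice of the parameters. -/
theorem local_sum {d : ℕ} {a lam B₀ B₁ ε : ℝ} (h : Ag d a lam B₀ B₁ ε) (ha1 : 1 ≤ a)
    (hB : 0 ≤ B₁) (hε : 0 ≤ ε) {e e₁ : ℝ} (he : 0 < e) (he₁ : 0 < e₁) :
    ∃ C : ℝ, 0 ≤ C ∧ ∀ (m : ℕ) (Ω : Type) [Fintype Ω] (ζ : Type) (p : Ω → ℝ) (Z : Ω → ζ) (v : Ω → Fin d → ℤ)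
      (u : Ω → Fin d → ℝ) (τ : Ω → ℤ), IsFam (2 ^ m) p Z v u τ → ∃ w Kf' : ℝ, 0 ≤ w ∧ 0 ≤ Kf' ∧
      w * (Real.log 2 - e - e₁) + Kf' ≤ Kf (2 ^ m) p (bv Z v) τ + C ∧
      CH p v Z ≤ a * (Sb (2 ^ m) p Z v u τ - m * Real.log 2) + lam * Kf' +
        w * ((a + d) * Real.log 2 + a * e₁ + B₁ * (2 / e) * e₁) + ε * (m * Real.log 2) + C := by
  have ha : 0 ≤ a := by linarith
  obtain ⟨C₁, hC₁⟩ := stop_energy he
  set c₁ : ℝ := -Real.log (1 - Real.exp (-e₁)) with hc₁
  refine ⟨|C₁| * (B₁ * (2 / e)) + |c₁| * (a + 1 + B₁ * (2 / e)) + a * (2 * d) + |B₀| +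
    (d + 1) * Real.log 3, by positivity, ?_⟩
  intro m Ω _ ζ p Z v u τ hf
  obtain ⟨M, hM⟩ : ∃ M : ℕ, M = 2 ^ m := ⟨_, rfl⟩
  rw [← hM] at hf ⊢
  classical
  have hp := hf.hp
  have h1 := hf.h1
  have hm1 : M ≤ 2 ^ m := hM.le
  have hτ' : ∀ ω, 0 < p ω → 0 ≤ τ ω ∧ τ ω < 2 ^ m := by
    intro ω hω
    obtain ⟨i1, i2⟩ := hf.hτ ω hω
    refine ⟨i1, lt_of_lt_of_le i2 ?_⟩
    exact_mod_cast hm1
  obtain ⟨J, hJ⟩ := exists_stop m e p (bv Z v) τ
  set w : ℝ := Ex p (fun ω => (J ω : ℝ)) with hw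
  have hw0 : 0 ≤ w := Ex_nonneg hp fun ω _ => Nat.cast_nonneg _
  set Q : Ω → ℤ := fun ω => τ ω / 2 ^ (m - J ω) with hQ
  set E₁ : ℝ := CH p (fun ω => (J ω, Q ω)) (bv Z v) with hE₁
  have hE0 : 0 ≤ E₁ := CH_nonneg hp _ _
  have s1 := stop_entropy he₁ hp h1 hτ' hJ
  have s2 := stop_mass he hp h1 hτ' hJ
  have s3 := code_entropy Z he₁ hp h1 hτ' hJ.le
  -- the decomposition of the entropy of the time
  set b' : Ω → (((Fin d → ℤ) × ζ) × ℤ) := fun ω => (bv Z v ω, Q ω) with hb'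
  have t1 : CH p τ (bv Z v) = E₁ + CH p τ (fun ω => (b' ω, J ω)) := by
    have c1 := CH_bayes hp τ (fun ω => (J ω, Q ω)) (bv Z v)
    have c2 : CH p (fun ω => (J ω, Q ω)) (fun ω => (τ ω, bv Z v ω)) = 0 := by
      refine CH_eq_zero hp ?_
      intro ω ω' _ _ e
      simp only [Prod.mk.injEq] at e
      have := hJ.det ω ω' e.2 e.1
      simp only [hQ, this, e.1]
    have c3 : CH p τ (fun ω => ((J ω, Q ω), bv Z v ω)) = CH p τ (fun ω => (b' ω, J ω)) := by
      refine CH_congr hp ?_ ?_ ?_ ?_ <;>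
      · intro w w' _ _ e
        simp only [hb', Prod.mk.injEq] at e ⊢
        tauto
    linarith
  set KL : ℝ := Ex p (fun ω => Real.log (2 ^ (m - J ω))) - CH p τ (fun ω => (b' ω, J ω)) with hKL
  -- logarithms
  have hlog2 : 0 < Real.log 2 := Real.log_pos (by norm_num)
  have t2 : Ex p (fun ω => Real.log (2 ^ (m - J ω))) = m * Real.log 2 - w * Real.log 2 := by
    have : ∀ ω, Real.log (2 ^ (m - J ω)) = m * Real.log 2 + (-Real.log 2) * (J ω : ℝ) := by
      intro ω
      rw [Real.log_pow, Nat.cast_sub (hJ.le ω)]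
      ring
    simp_rw [this]
    rw [Ex_add, Ex_const h1, Ex_smul]
    ring
  have hM0 : (0 : ℝ) < M := by exact_mod_cast hf.hM
  have t3 : m * Real.log 2 = Real.log M := by
    rw [← Real.log_pow, hM]
    push_cast
    rfl
  have hlog3 : Real.log 2 ≤ Real.log 3 := Real.log_le_log (by norm_num) (by norm_num)
  -- per level
  set g : ℕ → ℝ := fun j => law p J j with hg
  have hg0 : ∀ j, 0 ≤ g j := fun j => law_nonneg hp J j
  set b'' : ℕ → Ω → (((Fin d → ℤ) × ζ) × ℤ) := fun j ω => (bv Z v ω, τ ω / 2 ^ (m - j)) with hb''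
  have hcb : ∀ j, CH (cond p J j) τ b' = CH (cond p J j) τ (b'' j) := by
    intro j
    refine CH_congr (cond_nonneg hp J j) ?_ ?_ ?_ ?_
    · intro w w' a b e; exact (Prod.ext_iff.mp e).1
    · intro w w' a b e; exact (Prod.ext_iff.mp e).1
    · intro w w' a b e
      have ja := ((cond_pos_iff hp J j w).mp a).2
      have jb := ((cond_pos_iff hp J j w').mp b).2
      simpa only [hb', hb'', hQ, ja, jb] using e
    · intro w w' a b e
      have ja := ((cond_pos_iff hp J j w).mp a).2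
      have jb := ((cond_pos_iff hp J j w').mp b).2
      simpa only [hb', hb'', hQ, ja, jb] using e
  have hcv : ∀ j, CH (cond p J j) v (fun ω => (Z ω, Q ω)) =
      CH (cond p J j) v (fun ω => (Z ω, τ ω / 2 ^ (m - j))) := by
    intro j
    refine CH_congr (cond_nonneg hp J j) ?_ ?_ ?_ ?_
    · intro w w' a b e; exact (Prod.ext_iff.mp e).1
    · intro w w' a b e; exact (Prod.ext_iff.mp e).1
    · intro w w' a b e
      have ja := ((cond_pos_iff hp J j w).mp a).2
      have jb := ((cond_pos_iff hp J j w').mp b).2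
      simpa only [hQ, ja, jb] using e
    · intro w w' a b e
      have ja := ((cond_pos_iff hp J j w).mp a).2
      have jb := ((cond_pos_iff hp J j w').mp b).2
      simpa only [hQ, ja, jb] using e
  -- the entropy of the time inside the intervals
  have hKLj : ∀ j, g j ≠ 0 → CH (cond p J j) τ (b'' j) ≤ Real.log (2 ^ (m - j)) := by
    intro j hj
    have hc := CH_le_card (cond_nonneg hp J j) (sum_cond p J hj) τ (b'' j)
      (fun z => Finset.Ico (z.2 * 2 ^ (m - j)) (z.2 * 2 ^ (m - j) + 2 ^ (m - j))) (by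
        intro ω _
        simp only [hb'']
        rw [Finset.mem_Ico]
        have h2 : (0 : ℤ) < 2 ^ (m - j) := by positivity
        have i1 := Int.emod_add_mul_ediv (τ ω) (2 ^ (m - j))
        have i2 := Int.emod_nonneg (τ ω) h2.ne'
        have i3 := Int.emod_lt_of_pos (τ ω) h2
        constructor <;> linarith)
    refine hc.trans (le_of_eq ?_)
    rw [show (fun ω => Real.log ((Finset.Ico ((b'' j ω).2 * 2 ^ (m - j))
      ((b'' j ω).2 * 2 ^ (m - j) + 2 ^ (m - j))).card : ℝ)) =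
      fun _ => Real.log (2 ^ (m - j)) from by
        funext ω
        rw [Int.card_Ico, add_sub_cancel_left]
        norm_cast]
    exact Ex_const (sum_cond p J hj) _
  have t4 : KL = ∑ j ∈ univ.image J, g j * (Real.log (2 ^ (m - j)) -
      CH (cond p J j) τ (b'' j)) := by
    rw [hKL, CH_split hp τ b' J, Ex_split hp _ J, ← Finset.sum_sub_distrib]
    refine Finset.sum_congr rfl fun j _ => ?_
    rw [mul_sub, hcb j]
    congr 1
    by_cases hj : g j = 0
    · simp only [hg] at hj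
      rw [hj]
      simp [hg, hj]
    · congr 1
      have : Ex (cond p J j) (fun ω => Real.log (2 ^ (m - J ω))) =
          Ex (cond p J j) (fun _ => Real.log (2 ^ (m - j))) := by
        refine le_antisymm ?_ ?_
        · refine Ex_mono (cond_nonneg hp J j) fun ω hω => ?_
          rw [((cond_pos_iff hp J j ω).mp hω).2]
        · refine Ex_mono (cond_nonneg hp J j) fun ω hω => ?_
          rw [((cond_pos_iff hp J j ω).mp hω).2]
      rw [this, Ex_const (sum_cond p J hj)]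
  have hKL0 : 0 ≤ KL := by
    rw [t4]
    refine Finset.sum_nonneg fun j _ => ?_
    by_cases hj : g j = 0
    · rw [hj, zero_mul]
    · exact mul_nonneg (hg0 j) (by linarith [hKLj j hj])
  -- the energies
  set Gj : ℕ → ℝ := fun j => Gf (2 ^ (m - j)) (cond p J j) (b'' j) (fun ω => τ ω % 2 ^ (m - j))
    with hGj
  have t5 : ∑ j ∈ univ.image J, g j * Gj j ≤ (2 / e) * (|C₁| + |c₁| + e₁ * w) := by
    have r1 : ∀ j ∈ univ.image J, g j * ((e / 2) * Gj j) ≤ g j * (|C₁| +
        Ex (cond p J j) (fun ω => -Real.log (mass m p (bv Z v) τ (bv Z v ω) m (τ ω)) +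
          Real.log (mass m p (bv Z v) τ (bv Z v ω) (J ω) (τ ω))) - CH (cond p J j) τ b') := by
      intro j hj
      by_cases hj0 : g j = 0
      · rw [hj0, zero_mul, zero_mul]
      · refine mul_le_mul_of_nonneg_left ?_ (hg0 j)
        have hjm : j ≤ m := by
          obtain ⟨ω, _, rfl⟩ := Finset.mem_image.mp hj
          exact hJ.le ω
        have := hC₁ Ω _ m p (bv Z v) τ J hp h1 hτ' hJ j hjm hj0
        rw [hcb j]
        have e1 : Ex (cond p J j) (fun ω => -Real.log (mass m p (bv Z v) τ (bv Z v ω) m (τ ω)) +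
            Real.log (mass m p (bv Z v) τ (bv Z v ω) j (τ ω))) =
            Ex (cond p J j) (fun ω => -Real.log (mass m p (bv Z v) τ (bv Z v ω) m (τ ω)) +
            Real.log (mass m p (bv Z v) τ (bv Z v ω) (J ω) (τ ω))) := by
          refine le_antisymm ?_ ?_
          · refine Ex_mono (cond_nonneg hp J j) fun ω hω => ?_
            rw [((cond_pos_iff hp J j ω).mp hω).2]
          · refine Ex_mono (cond_nonneg hp J j) fun ω hω => ?_
            rw [((cond_pos_iff hp J j ω).mp hω).2]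
        rw [← e1]
        have := le_abs_self C₁
        linarith
    have r2 := Finset.sum_le_sum r1
    have r3 : ∑ j ∈ univ.image J, g j * ((e / 2) * Gj j) =
        (e / 2) * ∑ j ∈ univ.image J, g j * Gj j := by
      rw [Finset.mul_sum]
      exact Finset.sum_congr rfl fun j _ => by ring
    have r4 : ∑ j ∈ univ.image J, g j * (|C₁| +
        Ex (cond p J j) (fun ω => -Real.log (mass m p (bv Z v) τ (bv Z v ω) m (τ ω)) +
          Real.log (mass m p (bv Z v) τ (bv Z v ω) (J ω) (τ ω))) - CH (cond p J j) τ b') =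
        |C₁| + Ex p (fun ω => -Real.log (mass m p (bv Z v) τ (bv Z v ω) m (τ ω)) +
          Real.log (mass m p (bv Z v) τ (bv Z v ω) (J ω) (τ ω))) -
          CH p τ (fun ω => (b' ω, J ω)) := by
      rw [CH_split hp τ b' J, Ex_split hp _ J]
      simp_rw [mul_sub, mul_add]
      rw [Finset.sum_sub_distrib, Finset.sum_add_distrib, ← Finset.sum_mul,
        sum_law_one h1 J, one_mul]
    have r5 : Ex p (fun ω => -Real.log (mass m p (bv Z v) τ (bv Z v ω) m (τ ω))) =
        CH p τ (bv Z v) := by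
      rw [CH_eq_mean hp]
      unfold mass
      simp only [Nat.sub_self, pow_zero, Int.ediv_one]
    have r6 : Ex p (fun ω => -Real.log (mass m p (bv Z v) τ (bv Z v ω) m (τ ω)) +
          Real.log (mass m p (bv Z v) τ (bv Z v ω) (J ω) (τ ω))) =
        CH p τ (bv Z v) -
          Ex p (fun ω => -Real.log (mass m p (bv Z v) τ (bv Z v ω) (J ω) (τ ω))) := by
      rw [← r5, ← Ex_sub]
      congr 1
      funext ω
      ring
    rw [r3, r4, r6] at r2
    have r7 := le_abs_self c₁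
    have r8 : (e / 2) * ∑ j ∈ univ.image J, g j * Gj j ≤ |C₁| + |c₁| + e₁ * w := by linarith
    have r9 : ∑ j ∈ univ.image J, g j * Gj j =
        (2 / e) * ((e / 2) * ∑ j ∈ univ.image J, g j * Gj j) := by
      field_simp
    rw [r9]
    exact mul_le_mul_of_nonneg_left r8 (by positivity)
  -- the slices
  have t6 : ∑ j ∈ univ.image J, g j * Sf M (cond p J j) Z v u τ ≤ Sf M p Z v u τ := by
    unfold Sf
    rw [← CH_split hp (fun ω => rd (pos M (u ω) (v ω) (τ ω))) (fun ω => (Z ω, τ ω)) J]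
    refine CH_mono_cond hp ?_
    intro w w' _ _ e
    simp only [Prod.mk.injEq] at e ⊢
    tauto
  -- the logarithms
  have t7 : ∑ j ∈ univ.image J, g j * Real.log (M / 2 ^ (m - j) + 2) ≤
      Real.log 3 + w * Real.log 2 := by
    have r1 : ∀ j ∈ univ.image J, g j * Real.log (M / 2 ^ (m - j) + 2) ≤
        g j * (Real.log 3 + j * Real.log 2) := by
      intro j hj
      have hjm : j ≤ m := by
        obtain ⟨ω, _, rfl⟩ := Finset.mem_image.mp hj
        exact hJ.le ω
      refine mul_le_mul_of_nonneg_left ?_ (hg0 j)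
      rw [← Real.log_pow, ← Real.log_mul (by norm_num) (by positivity)]
      apply Real.log_le_log (by positivity)
      have i1 : (M : ℝ) ≤ 2 ^ m := by exact_mod_cast hm1
      have i2 : (2 : ℝ) ^ m = 2 ^ j * 2 ^ (m - j) := by
        rw [← pow_add]; congr 1; omega
      have i3 : (M : ℝ) / 2 ^ (m - j) ≤ 2 ^ j := by
        rw [div_le_iff₀ (by positivity), ← i2]
        exact i1
      have i4 : (1 : ℝ) ≤ 2 ^ j := one_le_pow₀ (by norm_num)
      linarith
    refine (Finset.sum_le_sum r1).trans ?_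
    simp_rw [mul_add]
    rw [Finset.sum_add_distrib, ← Finset.sum_mul, sum_law_one h1 J, one_mul]
    have r2 : ∑ j ∈ univ.image J, g j * (j * Real.log 2) = w * Real.log 2 := by
      rw [hw, Ex_split hp _ J, Finset.sum_mul]
      refine Finset.sum_congr rfl fun j _ => ?_
      by_cases hj0 : g j = 0
      · simp only [hg] at hj0
        simp [hg, hj0]
      · have : Ex (cond p J j) (fun ω => (J ω : ℝ)) = Ex (cond p J j) (fun _ => (j : ℝ)) := by
          refine le_antisymm ?_ ?_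
          · refine Ex_mono (cond_nonneg hp J j) fun ω hω => ?_
            rw [((cond_pos_iff hp J j ω).mp hω).2]
          · refine Ex_mono (cond_nonneg hp J j) fun ω hω => ?_
            rw [((cond_pos_iff hp J j ω).mp hω).2]
        rw [this, Ex_const (sum_cond p J hj0)]
        ring
    rw [r2]
  -- the entropy of the time in the intervals
  have t11 : CH p τ (fun ω => ((Z ω, Q ω), J ω)) ≤
      CH p τ Z - CH p (fun ω => (J ω, Q ω)) Z + (e₁ * w + c₁) := by
    have c1 := CH_bayes hp τ (fun ω => (J ω, Q ω)) Z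
    have c3 : CH p τ (fun ω => ((J ω, Q ω), Z ω)) = CH p τ (fun ω => ((Z ω, Q ω), J ω)) := by
      refine CH_congr hp ?_ ?_ ?_ ?_ <;>
      · intro w w' _ _ e
        simp only [Prod.mk.injEq] at e ⊢
        tauto
    have c4 : CH p (fun ω => (J ω, Q ω)) (fun ω => (τ ω, Z ω)) ≤ e₁ * w + c₁ := by
      have c5 := pair_cross (p := p) (J := J) (m := m) (fun ω => (τ ω, Z ω)) Q
        (fun z k i => if i = z.1 / 2 ^ (m - k) then 1 else 0) he₁ hp h1 hJ.le
        (fun z k i => by split_ifs <;> norm_num)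
        (fun ω _ => by
          have : (if Q ω = τ ω / 2 ^ (m - J ω) then (1 : ℝ) else 0) = 1 := if_pos rfl
          simp only [this]
          exact one_pos)
        (fun ω _ k _ F => by
          rw [Finset.sum_ite_eq']
          split_ifs <;> norm_num)
      have c6 : Ex p (fun ω => -Real.log (if Q ω = τ ω / 2 ^ (m - J ω) then (1 : ℝ) else 0)) = 0 := by
        have : (fun ω => -Real.log (if Q ω = τ ω / 2 ^ (m - J ω) then (1 : ℝ) else 0)) =
            fun _ => (0 : ℝ) := by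
          funext ω
          rw [if_pos rfl, Real.log_one, neg_zero]
        rw [this]
        exact Ex_const h1 0
      rw [hc₁]
      linarith
    linarith
  have t12 : CH p τ (fun ω => ((Z ω, Q ω), J ω)) = ∑ j ∈ univ.image J,
      g j * CH (cond p J j) τ (fun ω => (Z ω, τ ω / 2 ^ (m - j))) := by
    rw [CH_split hp τ (fun ω => (Z ω, Q ω)) J]
    refine Finset.sum_congr rfl fun j _ => ?_
    congr 1
    refine CH_congr (cond_nonneg hp J j) ?_ ?_ ?_ ?_
    · intro w w' a b e; exact (Prod.ext_iff.mp e).1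
    · intro w w' a b e; exact (Prod.ext_iff.mp e).1
    · intro w w' a b e
      have ja := ((cond_pos_iff hp J j w).mp a).2
      have jb := ((cond_pos_iff hp J j w').mp b).2
      simpa only [hQ, ja, jb] using e
    · intro w w' a b e
      have ja := ((cond_pos_iff hp J j w).mp a).2
      have jb := ((cond_pos_iff hp J j w').mp b).2
      simpa only [hQ, ja, jb] using e
  have t13 : ∑ j ∈ univ.image J, g j * (((m - j : ℕ) : ℝ) * Real.log 2) =
      m * Real.log 2 - w * Real.log 2 := by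
    rw [← t2, Ex_split hp _ J]
    refine Finset.sum_congr rfl fun j _ => ?_
    by_cases hj0 : g j = 0
    · simp only [hg] at hj0
      simp [hg, hj0]
    · have : Ex (cond p J j) (fun ω => Real.log (2 ^ (m - J ω))) =
          Ex (cond p J j) (fun _ => ((m - j : ℕ) : ℝ) * Real.log 2) := by
        refine le_antisymm ?_ ?_
        · refine Ex_mono (cond_nonneg hp J j) fun ω hω => ?_
          rw [((cond_pos_iff hp J j ω).mp hω).2, Real.log_pow]
        · refine Ex_mono (cond_nonneg hp J j) fun ω hω => ?_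
          rw [((cond_pos_iff hp J j ω).mp hω).2, Real.log_pow]
      rw [this, Ex_const (sum_cond p J hj0)]
  -- the local inequalities
  have t8 : CH p v (fun ω => ((Z ω, Q ω), J ω)) ≤
      ∑ j ∈ univ.image J, g j * (a * (CH (cond p J j) τ (fun ω => (Z ω, τ ω / 2 ^ (m - j))) +
        (Sf M (cond p J j) Z v u τ + 2 * d) - ((m - j : ℕ) : ℝ) * Real.log 2) +
        lam * (Real.log (2 ^ (m - j)) - CH (cond p J j) τ (b'' j)) + B₀ + B₁ * Gj j +
        ε * (((m - j : ℕ) : ℝ) * Real.log 2) + d * Real.log (M / 2 ^ (m - j) + 2)) := by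
    rw [CH_split hp v (fun ω => (Z ω, Q ω)) J]
    refine Finset.sum_le_sum fun j _ => ?_
    by_cases hj0 : g j = 0
    · simp only [hg] at hj0
      simp [hg, hj0]
    · refine mul_le_mul_of_nonneg_left ?_ (hg0 j)
      rw [hcv j, Real.log_pow]
      exact local_step h ha (hf.cond J hj0)
  have t9 : ∑ j ∈ univ.image J, g j * (a * (CH (cond p J j) τ (fun ω => (Z ω, τ ω / 2 ^ (m - j))) +
        (Sf M (cond p J j) Z v u τ + 2 * d) - ((m - j : ℕ) : ℝ) * Real.log 2) +
        lam * (Real.log (2 ^ (m - j)) - CH (cond p J j) τ (b'' j)) + B₀ + B₁ * Gj j +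
        ε * (((m - j : ℕ) : ℝ) * Real.log 2) + d * Real.log (M / 2 ^ (m - j) + 2)) =
      a * ∑ j ∈ univ.image J, g j * CH (cond p J j) τ (fun ω => (Z ω, τ ω / 2 ^ (m - j))) +
      a * ∑ j ∈ univ.image J, g j * Sf M (cond p J j) Z v u τ + a * (2 * d) +
      (ε - a) * ∑ j ∈ univ.image J, g j * (((m - j : ℕ) : ℝ) * Real.log 2) +
      lam * KL + B₀ + B₁ * ∑ j ∈ univ.image J, g j * Gj j +
      d * ∑ j ∈ univ.image J, g j * Real.log (M / 2 ^ (m - j) + 2) := by
    rw [t4]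
    have hs := sum_law_one h1 J
    have e1 : ∀ j, g j * (a * (CH (cond p J j) τ (fun ω => (Z ω, τ ω / 2 ^ (m - j))) +
        (Sf M (cond p J j) Z v u τ + 2 * d) - ((m - j : ℕ) : ℝ) * Real.log 2) +
        lam * (Real.log (2 ^ (m - j)) - CH (cond p J j) τ (b'' j)) + B₀ + B₁ * Gj j +
        ε * (((m - j : ℕ) : ℝ) * Real.log 2) + d * Real.log (M / 2 ^ (m - j) + 2)) =
        a * (g j * CH (cond p J j) τ (fun ω => (Z ω, τ ω / 2 ^ (m - j)))) +
        a * (g j * Sf M (cond p J j) Z v u τ) + g j * (a * (2 * d)) +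
        (ε - a) * (g j * (((m - j : ℕ) : ℝ) * Real.log 2)) +
        lam * (g j * (Real.log (2 ^ (m - j)) - CH (cond p J j) τ (b'' j))) + g j * B₀ +
        B₁ * (g j * Gj j) + d * (g j * Real.log (M / 2 ^ (m - j) + 2)) := by
      intro j; ring
    simp_rw [e1]
    simp only [Finset.sum_add_distrib, ← Finset.mul_sum, ← Finset.sum_mul]
    rw [hs]
    ring
  rw [t9, ← t12, t13] at t8
  -- removing the interval
  have t10 : CH p v Z ≤ CH p v (fun ω => ((Z ω, Q ω), J ω)) +
      CH p (fun ω => (J ω, Q ω)) Z := by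
    have c1 := CH_le_add hp v (fun ω => (J ω, Q ω)) Z
    have c2 : CH p v (fun ω => ((J ω, Q ω), Z ω)) = CH p v (fun ω => ((Z ω, Q ω), J ω)) := by
      refine CH_congr hp ?_ ?_ ?_ ?_ <;>
      · intro w w' _ _ e
        simp only [Prod.mk.injEq] at e ⊢
        tauto
    linarith
  refine ⟨w, KL, hw0, hKL0, ?_, ?_⟩
  · have k1 := le_abs_self c₁
    have k2 : 0 ≤ |C₁| * (B₁ * (2 / e)) := by positivity
    have k3 : 0 ≤ |c₁| * (a + B₁ * (2 / e)) := by positivity
    have k4 : 0 ≤ a * (2 * d) := by positivity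
    have k5 : 0 ≤ d * Real.log 3 := by positivity
    have k6 := abs_nonneg B₀
    have k7 : 0 ≤ Real.log 3 := by linarith
    unfold Kf
    linarith
  · have k1 := le_abs_self c₁
    have k2 := le_abs_self B₀
    have k3 := mul_le_mul_of_nonneg_left t6 ha
    have k4 := mul_le_mul_of_nonneg_left t5 hB
    have k5 := mul_le_mul_of_nonneg_left t7 (Nat.cast_nonneg (α := ℝ) d)
    have k6 : 0 ≤ Real.log 3 := by linarith
    have e1 : B₁ * (2 / e * (|C₁| + |c₁| + e₁ * w)) =
        |C₁| * (B₁ * (2 / e)) + |c₁| * (B₁ * (2 / e)) + w * (B₁ * (2 / e) * e₁) := by ring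
    rw [e1] at k4
    have k8 := mul_le_mul_of_nonneg_left t11 ha
    have k9 : CH p (fun ω => (J ω, Q ω)) Z ≤ a * CH p (fun ω => (J ω, Q ω)) Z :=
      le_mul_of_one_le_left (CH_nonneg hp _ _) ha1
    have k10 : 0 ≤ ε * (w * Real.log 2) := by positivity
    have k11 : a * c₁ ≤ a * |c₁| := mul_le_mul_of_nonneg_left k1 ha
    have k12 := abs_nonneg c₁
    unfold Sb
    linarith

end Loc53

open Loc53

/-- (LOC) Localisation in sb-form. -/
theorem loc : LOCStmt := by
  intro d a Λ ha hΛ h ε hε ε' hε'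
  obtain ⟨B₀, B₁, hB, hAg⟩ := h ε' hε'
  have hlog2 : 0 < Real.log 2 := Real.log_pos (by norm_num)
  have hd : (0 : ℝ) ≤ d := Nat.cast_nonneg d
  obtain ⟨e, he, he2⟩ : ∃ e : ℝ, 0 < e ∧ (1 + ε) * e = ε * Real.log 2 / 4 := by
    refine ⟨ε * Real.log 2 / 4 / (1 + ε), by positivity, ?_⟩
    field_simp
  obtain ⟨e₁, he₁, he₁e, he₁2⟩ : ∃ e₁ : ℝ, 0 < e₁ ∧ e₁ ≤ e ∧
      (a + B₁ * (2 / e)) * e₁ ≤ ε * Real.log 2 / 2 := by
    refine ⟨min e (ε * Real.log 2 / 2 / (a + B₁ * (2 / e))), lt_min he (by positivity),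
      min_le_left _ _, ?_⟩
    have hpos : 0 < a + B₁ * (2 / e) := by positivity
    calc (a + B₁ * (2 / e)) * min e (ε * Real.log 2 / 2 / (a + B₁ * (2 / e))) ≤
        (a + B₁ * (2 / e)) * (ε * Real.log 2 / 2 / (a + B₁ * (2 / e))) := by
          gcongr
          exact min_le_right _ _
      _ = ε * Real.log 2 / 2 := by field_simp
  obtain ⟨C, hC0, hC⟩ := local_sum hAg ha hB hε'.le he he₁
  set L : ℝ := max Λ ((1 + ε) * (a + d)) with hL
  have hL1 : Λ ≤ L := le_max_left _ _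
  have hL2 : (1 + ε) * (a + d) ≤ L := le_max_right _ _
  have hL0 : 0 ≤ L := hΛ.trans hL1
  refine ⟨L * C + C, ?_⟩
  intro J Ω _ ζ p Z v u τ hf
  obtain ⟨w, KL, hw, hKL, r1, r2⟩ := hC J Ω ζ p Z v u τ hf
  -- the coefficient of `w`
  have k0 : 0 ≤ Real.log 2 - e - e₁ := by
    have : e ≤ Real.log 2 / 4 := by
      have h3 : (1 + ε) * e ≤ (1 + ε) * (Real.log 2 / 4) := by
        rw [he2]
        nlinarith
      exact le_of_mul_le_mul_left h3 (by positivity)
    linarith
  have k1 : (a + d) * Real.log 2 + a * e₁ + B₁ * (2 / e) * e₁ ≤ L * (Real.log 2 - e - e₁) := by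
    have i1 : (1 + ε) * (a + d) * (Real.log 2 - e - e₁) ≤ L * (Real.log 2 - e - e₁) :=
      mul_le_mul_of_nonneg_right hL2 k0
    have i2 : (1 + ε) * (e + e₁) ≤ ε * Real.log 2 / 2 := by
      have : (1 + ε) * e₁ ≤ (1 + ε) * e := by gcongr
      linarith
    have i3 : (a + d) * ((1 + ε) * (e + e₁)) ≤ (a + d) * (ε * Real.log 2 / 2) := by gcongr
    have i4 : ε * Real.log 2 / 2 ≤ (a + d) * (ε * Real.log 2 / 2) := by
      have : 0 ≤ ε * Real.log 2 / 2 := by positivity
      have h1 : 1 ≤ a + d := by linarith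
      exact le_mul_of_one_le_left this h1
    linarith
  have k2 := mul_le_mul_of_nonneg_left k1 hw
  have k3 := mul_le_mul_of_nonneg_left r1 hL0
  have k4 := mul_le_mul_of_nonneg_right hL1 hKL
  linarith

end Pool.LQ
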